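import Pool.Agent.V1198.DP3

/-!
# MP_840fa9_an, Q1: `UC(J, X) + g UC(J, X)` satisfies the difference property `(Δ)`
-/

set_option autoImplicit false

namespace Pool.Agent.Results.MP_840fa9_an.Delta

open Pool.Agent.V1198.DP MeasureTheory Set

/-- **Theorem.** Let `J` be `[α, ∞)`, `(α, ∞)` or `ℝ` and let `X` be a complex Banach space. If `f`
is Bochner integrable on every compact subinterval of `J` and `Δ_a f ∈ UC(J, X) + g UC(J, X)` for
every `a > 0`, then `f - M_h f ∈ UC(J, X) + g UC(J, X)` for every `h > 0`. -/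
theorem result : ∀ (X : Type) [NormedAddCommGroup X] [NormedSpace ℂ X] [CompleteSpace X]
    (J : Set ℝ), Adm J → ∀ f : ℝ → X, (∀ a b, a ∈ J → b ∈ J → IntegrableOn f (Icc a b)) →
    (∀ a : ℝ, 0 < a → InA J (fun t => f (t + a) - f t)) →
    ∀ h : ℝ, 0 < h → InA J (fun t => f t - (1 / h : ℝ) • (∫ s in t..t + h, f s)) := by
  intro X _ _ _ J hJ f hf H h hh
  exact difference_property hJ hf H hh

end Pool.Agent.Results.MP_840fa9_an.Delta
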